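import Mathlib
import Pool.Agent.H825R3.Tsi.Defs
import Pool.Agent.H825R3.Tsi.Fact
import Pool.Agent.H825R3.Tsi.Exist

set_option autoImplicit false

namespace Pool.Agent.Results.MP_ebc7ea_an.TsirelsonFactorization

open Pool.Agent.H825R3.Tsi

/-- **The unit vector basis of Tsirelson space has the factorization property.**

Tsirelson space with its unit vectors exists (as a Banach space `T` with a sequence `e` whose span
is dense and on whose finite linear combinations the norm satisfies the implicit equation of
Figiel and Johnson), and for every such realisation `(T, e)` the biorthogonal functionals exist and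
the identity of `T` factors through every bounded linear operator `A` on `T` with
`inf_k |e_k^*(A e_k)| > 0`. -/
theorem result :
    (∃ (T : Type) (_ : NormedAddCommGroup T) (_ : NormedSpace ℝ T) (e : ℕ → T),
      IsTsirelson T e) ∧
    ∀ (T : Type) [NormedAddCommGroup T] [NormedSpace ℝ T] (e : ℕ → T), IsTsirelson T e →
      (∃ es : ℕ → StrongDual ℝ T, Biorthogonal e es) ∧
      ∀ es : ℕ → StrongDual ℝ T, Biorthogonal e es → FactorizationProperty e es :=
  ⟨⟨TT, inferInstance, inferInstance, ee, isTsirelson_TT⟩,
    fun _ _ _ _ h => ⟨h.exists_biorth, fun _ hes => h.factorization hes⟩⟩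

end Pool.Agent.Results.MP_ebc7ea_an.TsirelsonFactorization
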